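import Pool.Agent.UMG.StmtsA

/-!
# Squad UMG, rows PCL and DER: polynomials with nonnegative coefficients
-/

set_option autoImplicit false

namespace Pool.Agent.UMG.A.H43

open Finset MvPolynomial Pool.Agent.UMG

abbrev Pl : Type := MvPolynomial ℕ ℝ

/-- nonnegative coefficients -/
def Nn (p : Pl) : Prop := ∀ C, 0 ≤ p.coeff C

theorem Nn.zero : Nn 0 := fun C => by rw [coeff_zero]

theorem Nn.add {p q : Pl} (hp : Nn p) (hq : Nn q) : Nn (p + q) := fun C => by
  rw [coeff_add]
  exact add_nonneg (hp C) (hq C)

theorem Nn.mul {p q : Pl} (hp : Nn p) (hq : Nn q) : Nn (p * q) := fun C => by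
  rw [coeff_mul]
  exact Finset.sum_nonneg fun x _ => mul_nonneg (hp _) (hq _)

theorem Nn.der {p : Pl} (hp : Nn p) (i : ℕ) : Nn (pderiv i p) := fun C => by
  rw [coeff_pderiv]
  exact mul_nonneg (hp _) (by positivity)

theorem Nn.iter {p : Pl} (hp : Nn p) (i n : ℕ) : Nn ((pderiv i)^[n] p) := by
  induction n with
  | zero => exact hp
  | succ n ih => rw [Function.iterate_succ_apply']; exact ih.der i

theorem Nn.sum {ι : Type} (s : Finset ι) {f : ι → Pl} (h : ∀ i ∈ s, Nn (f i)) :
    Nn (∑ i ∈ s, f i) := fun C => by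
  rw [coeff_sum]
  exact Finset.sum_nonneg fun i hi => h i hi C

theorem Nn.smul {p : Pl} (hp : Nn p) {c : ℝ} (hc : 0 ≤ c) : Nn (c • p) := fun C => by
  rw [coeff_smul]
  exact mul_nonneg hc (hp C)

theorem Nn.one : Nn 1 := fun C => by
  rw [coeff_one]
  split_ifs <;> norm_num

theorem Nn.X (i : ℕ) : Nn (Xv i) := fun C => by
  unfold Xv
  rw [coeff_X]
  split_ifs <;> norm_num

/-- the mixed part of the iterated Leibniz formula -/
theorem iter_mul (i : ℕ) {p q : Pl} (hp : Nn p) (hq : Nn q) (n : ℕ) :
    Nn ((pderiv i)^[n + 1] (p * q) - (pderiv i)^[n + 1] p * q - p * (pderiv i)^[n + 1] q) := by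
  induction n with
  | zero =>
    have : (pderiv i)^[0 + 1] (p * q) - (pderiv i)^[0 + 1] p * q - p * (pderiv i)^[0 + 1] q = 0 := by
      simp only [zero_add, Function.iterate_one, Derivation.leibniz, smul_eq_mul]
      ring
    rw [this]
    exact Nn.zero
  | succ n ih =>
    have key : (pderiv i)^[n + 1 + 1] (p * q) - (pderiv i)^[n + 1 + 1] p * q -
        p * (pderiv i)^[n + 1 + 1] q =
        pderiv i ((pderiv i)^[n + 1] (p * q) - (pderiv i)^[n + 1] p * q -
          p * (pderiv i)^[n + 1] q) + (pderiv i)^[n + 1] p * pderiv i q +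
          pderiv i p * (pderiv i)^[n + 1] q := by
      rw [Function.iterate_succ_apply' _ (n + 1) (p * q), Function.iterate_succ_apply' _ (n + 1) p,
        Function.iterate_succ_apply' _ (n + 1) q, map_sub, map_sub, Derivation.leibniz,
        Derivation.leibniz]
      simp only [smul_eq_mul]
      ring
    rw [key]
    exact ((ih.der i).add ((hp.iter i _).mul (hq.der i))).add ((hp.der i).mul (hq.iter i _))

theorem coeff_iter (i : ℕ) (p : Pl) (n : ℕ) : ∀ C : ℕ →₀ ℕ,
    ((pderiv i)^[n] p).coeff C =
      ((C i + n).descFactorial n : ℝ) * p.coeff (C + Finsupp.single i n) := by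
  induction n with
  | zero => intro C; simp
  | succ n ih =>
    intro C
    rw [Function.iterate_succ_apply', coeff_pderiv, ih]
    have h1 : (C + Finsupp.single i 1 : ℕ →₀ ℕ) i = C i + 1 := by simp
    have h2 : C + Finsupp.single i 1 + Finsupp.single i n = C + Finsupp.single i (n + 1) := by
      rw [add_assoc, ← Finsupp.single_add, add_comm 1 n]
    have h3 : (C i + (n + 1)).descFactorial (n + 1) = (C i + 1) * (C i + 1 + n).descFactorial n := by
      rw [Nat.descFactorial_succ, show C i + (n + 1) = C i + 1 + n by ring]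
      congr 1
      omega
    rw [h1, h2, h3]
    push_cast
    ring

/-- the condition in the class: `∂_1^j p - j ∂_j p` -/
noncomputable def df (j : ℕ) (p : Pl) : Pl := (pderiv 1)^[j] p - (j : ℝ) • pderiv j p

theorem cls_iff (j : ℕ) (p : Pl) : Cls j p ↔ Nn p ∧ Nn (df j p) := by
  have : ∀ C, (df j p).coeff C = ((C 1 + j).descFactorial j : ℝ) *
      p.coeff (C + Finsupp.single 1 j) - (j : ℝ) * ((C j : ℝ) + 1) *
        p.coeff (C + Finsupp.single j 1) := by
    intro C
    rw [df, coeff_sub, coeff_smul, coeff_iter, coeff_pderiv, smul_eq_mul]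
    ring
  constructor
  · rintro ⟨h1, h2⟩
    refine ⟨h1, fun C => ?_⟩
    rw [this]
    exact sub_nonneg.2 (h2 C)
  · rintro ⟨h1, h2⟩
    refine ⟨h1, fun C => ?_⟩
    have h3 := h2 C
    rw [this] at h3
    exact sub_nonneg.1 h3

/-- **PCL** -/
theorem pcl : PclStmt := by
  intro j p q hj hp hq
  rw [cls_iff] at hp hq ⊢
  refine ⟨hp.1.mul hq.1, ?_⟩
  obtain ⟨n, rfl⟩ : ∃ n, j = n + 1 := ⟨j - 1, by omega⟩
  have key : df (n + 1) (p * q) =
      ((pderiv 1)^[n + 1] (p * q) - (pderiv 1)^[n + 1] p * q - p * (pderiv 1)^[n + 1] q) +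
        df (n + 1) p * q + p * df (n + 1) q := by
    unfold df
    rw [Derivation.leibniz]
    simp only [smul_eq_mul, smul_eq_C_mul]
    ring
  rw [key]
  exact ((iter_mul 1 hp.1 hq.1 n).add (hp.2.mul hq.1)).add (hp.1.mul hq.2)

/-! ### the functional `E` on polynomials -/

theorem E_zero (w : ℕ → Pl) : E w 0 = 1 := by rw [E]

theorem E_succ (w : ℕ → Pl) (n : ℕ) :
    E w (n + 1) = (1 / ((n : ℝ) + 1)) • ∑ i ∈ range (n + 1), w (i + 1) * E w (n - i) := by
  rw [E]
  ext C
  rw [coeff_smul, coeff_smul, Rat.smul_def, smul_eq_mul]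
  push_cast
  rfl

theorem Nn.E {w : ℕ → Pl} (h : ∀ i, 1 ≤ i → Nn (w i)) (n : ℕ) : Nn (Pool.Agent.UMG.E w n) := by
  induction n using Nat.strong_induction_on with
  | _ n ih =>
    rcases n with _ | n
    · rw [E_zero]; exact Nn.one
    · rw [E_succ]
      refine (Nn.sum _ fun i hi => ?_).smul (by positivity)
      exact (h _ (by omega)).mul (ih _ (by omega))

theorem E_rec (w : ℕ → Pl) (n : ℕ) :
    ∑ i ∈ range (n + 1), w (i + 1) * Pool.Agent.UMG.E w (n - i) =
      ((n : ℝ) + 1) • Pool.Agent.UMG.E w (n + 1) := by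
  have h : ((n : ℝ) + 1) ≠ 0 := by positivity
  rw [E_succ, smul_smul, mul_one_div_cancel h, one_smul]

/-- derivatives of `E` if the derivatives of the weights are `1` or `0` -/
theorem der_E {w : ℕ → Pl} {j : ℕ} (hj : 1 ≤ j) (h : ∀ i, 1 ≤ i → pderiv j (w i) =
    if i = j then 1 else 0) (k : ℕ) :
    pderiv j (Pool.Agent.UMG.E w k) =
      if j ≤ k then (1 / (j : ℝ)) • Pool.Agent.UMG.E w (k - j) else 0 := by
  have hj0 : (j : ℝ) ≠ 0 := by positivity
  induction k using Nat.strong_induction_on with
  | _ k ih =>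
    rcases k with _ | k
    · rw [E_zero, if_neg (by omega)]
      exact pderiv_one
    · have hk0 : ((k : ℝ) + 1) ≠ 0 := by positivity
      rw [E_succ, Derivation.map_smul, map_sum]
      have h1 : ∀ i ∈ range (k + 1), pderiv j (w (i + 1) * Pool.Agent.UMG.E w (k - i)) =
          (if i + 1 = j then Pool.Agent.UMG.E w (k - i) else 0) +
          (if j ≤ k - i then (1 / (j : ℝ)) • (w (i + 1) * Pool.Agent.UMG.E w (k - i - j)) else 0) := by
        intro i hi
        rw [Derivation.leibniz, h _ (by omega), ih _ (by omega)]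
        simp only [smul_eq_mul]
        split_ifs <;> simp [add_comm]
      rw [Finset.sum_congr rfl h1, Finset.sum_add_distrib]
      by_cases hjk : j ≤ k + 1
      · rw [if_pos hjk]
        have h2 : ∑ i ∈ range (k + 1), (if i + 1 = j then Pool.Agent.UMG.E w (k - i) else 0) =
            Pool.Agent.UMG.E w (k + 1 - j) := by
          rw [Finset.sum_eq_single (j - 1)]
          · rw [if_pos (by omega)]
            congr 1
            omega
          · intro b _ hb
            rw [if_neg (by omega)]
          · intro hb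
            exact absurd (Finset.mem_range.2 (by omega)) hb
        have h3 : ∑ i ∈ range (k + 1), (if j ≤ k - i then
            (1 / (j : ℝ)) • (w (i + 1) * Pool.Agent.UMG.E w (k - i - j)) else 0) =
            (((k : ℝ) + 1 - j) / j) • Pool.Agent.UMG.E w (k + 1 - j) := by
          rcases Nat.lt_or_ge k j with hlt | hge
          · have : j = k + 1 := by omega
            subst this
            rw [Finset.sum_eq_zero]
            · push_cast
              rw [sub_self, zero_div, zero_smul]
            · intro i _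
              rw [if_neg (by omega)]
          · obtain ⟨m, rfl⟩ : ∃ m, k = j + m := ⟨k - j, by omega⟩
            have h4 : range (j + m + 1) = range (m + 1 + j) := by congr 1; omega
            have h6 : ∑ i ∈ range (m + 1), (if j ≤ j + m - i then
                (1 / (j : ℝ)) • (w (i + 1) * Pool.Agent.UMG.E w (j + m - i - j)) else 0) =
                (1 / (j : ℝ)) • (((m : ℝ) + 1) • Pool.Agent.UMG.E w (m + 1)) := by
              rw [← E_rec, Finset.smul_sum]
              refine Finset.sum_congr rfl fun i hi => ?_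
              have hi' := Finset.mem_range.1 hi
              rw [if_pos (by omega), show j + m - i - j = m - i by omega]
            have h7 : ∑ i ∈ range j, (if j ≤ j + m - (m + 1 + i) then
                (1 / (j : ℝ)) • (w (m + 1 + i + 1) *
                  Pool.Agent.UMG.E w (j + m - (m + 1 + i) - j)) else 0) = 0 := by
              refine Finset.sum_eq_zero fun i _ => ?_
              rw [if_neg (by omega)]
            rw [h4, Finset.sum_range_add, h6, h7, add_zero, smul_smul,
              show j + m + 1 - j = m + 1 by omega]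
            congr 1
            push_cast
            ring
        rw [h2, h3]
        have h5 : Pool.Agent.UMG.E w (k + 1 - j) + (((k : ℝ) + 1 - j) / j) •
            Pool.Agent.UMG.E w (k + 1 - j) = (((k : ℝ) + 1) / j) •
            Pool.Agent.UMG.E w (k + 1 - j) := by
          nth_rewrite 1 [← one_smul ℝ (Pool.Agent.UMG.E w (k + 1 - j))]
          rw [← add_smul]
          congr 1
          field_simp
          ring
        rw [h5, smul_smul]
        congr 1
        field_simp
      · rw [if_neg hjk, Finset.sum_eq_zero, Finset.sum_eq_zero, add_zero, smul_zero]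
        · intro i _
          rw [if_neg (by omega)]
        · intro i hi
          have := Finset.mem_range.1 hi
          rw [if_neg (by omega)]

theorem der_E_zero {w : ℕ → Pl} {j : ℕ} (h : ∀ i, 1 ≤ i → pderiv j (w i) = 0) (k : ℕ) :
    pderiv j (Pool.Agent.UMG.E w k) = 0 := by
  induction k using Nat.strong_induction_on with
  | _ k ih =>
    rcases k with _ | k
    · rw [E_zero]; exact pderiv_one
    · rw [E_succ, Derivation.map_smul, map_sum, Finset.sum_eq_zero, smul_zero]
      intro i _
      rw [Derivation.leibniz, h _ (by omega), ih _ (by omega), smul_zero, smul_zero, add_zero]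

theorem iter_E_one {w : ℕ → Pl} (h : ∀ i, 1 ≤ i → pderiv 1 (w i) = if i = 1 then 1 else 0)
    (k n : ℕ) : (pderiv 1)^[n] (Pool.Agent.UMG.E w k) =
      if n ≤ k then Pool.Agent.UMG.E w (k - n) else 0 := by
  induction n with
  | zero => simp
  | succ n ih =>
    rw [Function.iterate_succ_apply', ih]
    by_cases hn : n ≤ k
    · rw [if_pos hn, der_E le_rfl h]
      by_cases hn' : n + 1 ≤ k
      · rw [if_pos (by omega), if_pos hn', Nat.cast_one, div_one, one_smul]
        congr 1
      · rw [if_neg (by omega), if_neg hn']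
    · rw [if_neg hn, if_neg (by omega), map_zero]

/-- **DER** -/
theorem der : DerStmt := by
  intro K j k hj hjK hodd
  constructor
  · rw [cls_iff]
    have hX : ∀ m, 1 ≤ m → m ≤ K → ∀ i, 1 ≤ i →
        pderiv m (if i ≤ K then Xv i else 0 : Pl) = if i = m then 1 else 0 := by
      intro m hm hmK i hi
      by_cases him : i = m
      · subst him
        rw [if_pos hmK, if_pos rfl]
        exact pderiv_X_self i
      · rw [if_neg him]
        by_cases hiK : i ≤ K
        · rw [if_pos hiK]
          exact pderiv_X_of_ne him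
        · rw [if_neg hiK, map_zero]
    refine ⟨Nn.E (fun i _ => ?_) k, ?_⟩
    · by_cases hiK : i ≤ K
      · rw [if_pos hiK]; exact Nn.X i
      · rw [if_neg hiK]; exact Nn.zero
    · have h0 : df j (Pool.Agent.UMG.E (fun i => if i ≤ K then Xv i else 0) k) = 0 := by
        have hj0 : (j : ℝ) ≠ 0 := by positivity
        rw [df, iter_E_one (hX 1 le_rfl (by omega)), der_E (by omega) (hX j (by omega) hjK)]
        by_cases hjk : j ≤ k
        · rw [if_pos hjk, if_pos hjk, smul_smul, mul_one_div_cancel hj0, one_smul, sub_self]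
        · rw [if_neg hjk, if_neg hjk, smul_zero, sub_self]
      rw [h0]
      exact Nn.zero
  · rw [cls_iff]
    unfold hh
    refine ⟨Nn.E (fun i _ => Nn.X _) 3, ?_⟩
    have h1 : ∀ m : ℕ, ¬ 2 ∣ m → pderiv m (Pool.Agent.UMG.E (fun i => Xv (2 * i)) 3) = 0 := by
      intro m hm
      refine der_E_zero (fun i _ => pderiv_X_of_ne ?_) 3
      intro he
      exact hm ⟨i, he.symm⟩
    have h0 : df j (Pool.Agent.UMG.E (fun i => Xv (2 * i)) 3) = 0 := by
      obtain ⟨n, rfl⟩ : ∃ n, j = n + 1 := ⟨j - 1, by omega⟩
      have h2 : (pderiv 1)^[n + 1] (Pool.Agent.UMG.E (fun i => Xv (2 * i)) 3) = 0 := by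
        rw [Function.iterate_succ_apply, h1 1 (by omega)]
        clear h1 hodd hjK hj
        induction n with
        | zero => rfl
        | succ n ih => rw [Function.iterate_succ_apply', ih, map_zero]
      rw [df, h2, h1 _ hodd, smul_zero, sub_self]
    rw [h0]
    exact Nn.zero

end Pool.Agent.UMG.A.H43
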