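import Pool.Agent.UMG.StmtsD

/-!
# Squad UMG, row EXS: the number of the `u` with a given output property
-/

set_option autoImplicit false

namespace Pool.Agent.UMG.D.H43

open Finset Pool.Agent.UMG

theorem edg_congr (M : ℕ) (c : Code) (x x' : ℕ → ℕ) (h : ∀ j, 1 ≤ j → j ≤ M → x j = x' j) :
    edg M c x = edg M c x' := by
  unfold edg
  have : ∀ j ∈ List.range M,
      mt (j + 1) ((bund 0 c).filter (fun b => bsz b = j + 1)) (x (j + 1)) =
        mt (j + 1) ((bund 0 c).filter (fun b => bsz b = j + 1)) (x' (j + 1)) := by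
    intro j hj
    rw [h (j + 1) (by omega) (by have := List.mem_range.1 hj; omega)]
  exact List.flatMap_congr this

/-- **EXS** -/
theorem exs (hPck : PckStmt) (hUna : UnaStmt) (hGcd : GcdStmt) (hGln : GlnStmt) (hWyb : WybStmt)
    (hCdv : CdvStmt) (hHit : HitStmt) : ExsStmt := by
  intro K d P hd hP0
  have h1 : ∑ u ∈ range (TT K d), P (algo K d u) =
      ∑ g ∈ range ((d.sum + 1) ^ K), ∑ z ∈ range (wg K d g),
        P (leaf K d g (unA (fX d.sum K g) d (cfg d.sum K g) z).1
          (unA (fX d.sum K g) d (cfg d.sum K g) z).2.2) :=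
    hPck ((d.sum + 1) ^ K) (wg K d) (fun g z =>
      P (leaf K d g (unA (fX d.sum K g) d (cfg d.sum K g) z).1
        (unA (fX d.sum K g) d (cfg d.sum K g) z).2.2))
  have h2 : ∀ g ∈ range ((d.sum + 1) ^ K), ∑ z ∈ range (wg K d g),
      P (leaf K d g (unA (fX d.sum K g) d (cfg d.sum K g) z).1
        (unA (fX d.sum K g) d (cfg d.sum K g) z).2.2) =
      gsum d (fun c => ∑ z ∈ range (cfg d.sum K g * wt (fX d.sum K g) c),
        P (leaf K d g c z)) := fun g _ =>
    hUna (fX d.sum K g) d (cfg d.sum K g) (fun c _ z => P (leaf K d g c z))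
  rw [h1, Finset.sum_congr rfl h2]
  have h3 := (hGln d).2.1 ℕ (range ((d.sum + 1) ^ K))
    (fun g c => ∑ z ∈ range (cfg d.sum K g * wt (fX d.sum K g) c), P (leaf K d g c z))
  rw [← h3, ← (hGln d).1]
  refine hGcd ℕ d _ _ hd fun c hc => ?_
  have hb := (hCdv d c hc).1 0
  have h4 : ∀ g ∈ range ((d.sum + 1) ^ K),
      ∑ z ∈ range (cfg d.sum K g * wt (fX d.sum K g) c), P (leaf K d g c z) =
      ∑ z ∈ range (∏ j ∈ range (K + d.sum), YB d.sum K g c j),
        (if acc d.sum K g c z then
          (fun x => P (out d.sum (gr d.length (edg d.sum c x)))) (ix d.sum K g c z) else 0) := by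
    intro g _
    rw [hWyb d.sum K g c hb]
    refine Finset.sum_congr rfl fun z _ => ?_
    unfold leaf
    split_ifs
    · rfl
    · exact hP0
  rw [Finset.sum_congr rfl h4]
  refine hHit K d c (fun x => P (out d.sum (gr d.length (edg d.sum c x)))) hc ?_
  intro x x' hx
  show P (out d.sum (gr d.length (edg d.sum c x))) = P (out d.sum (gr d.length (edg d.sum c x')))
  rw [edg_congr d.sum c x x' hx]

end Pool.Agent.UMG.D.H43
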